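import Pool.Agent.Helper75.PX.Stmts

set_option autoImplicit false

universe u

namespace Pool.Agent.Helper9.PX

open Pool.Agent.Helper75.PX

section
variable {K A : Type*} [Field K] [Ring A] [Algebra K A]

theorem uE_mul {α β : A} {a b : K} (haa : α * α = algebraMap K A a)
    (hbb : β * β = algebraMap K A b) (hab : α * β = β * α) (u v : Fin 4 → K) :
    uE α β u * uE α β v = uE α β
      ![u 0 * v 0 + a * (u 1 * v 1) + b * (u 2 * v 2) + a * b * (u 3 * v 3),
        u 0 * v 1 + u 1 * v 0 + b * (u 2 * v 3 + u 3 * v 2),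
        u 0 * v 2 + u 2 * v 0 + a * (u 1 * v 3 + u 3 * v 1),
        u 0 * v 3 + u 3 * v 0 + u 1 * v 2 + u 2 * v 1] := by
  have h1 : α * α = a • (1 : A) := by rw [haa, Algebra.algebraMap_eq_smul_one]
  have h2 : β * β = b • (1 : A) := by rw [hbb, Algebra.algebraMap_eq_smul_one]
  have h3 : β * α = α * β := hab.symm
  have h4 : α * (α * β) = a • β := by rw [← mul_assoc, h1, smul_one_mul]
  have h5 : α * β * α = a • β := by rw [mul_assoc, h3, h4]
  have h6 : α * β * β = b • α := by rw [mul_assoc, h2, mul_smul_comm, mul_one]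
  have h7 : β * (α * β) = b • α := by rw [← mul_assoc, h3, h6]
  have h8 : α * β * (α * β) = (a * b) • (1 : A) := by
    rw [← mul_assoc, h5, smul_mul_assoc, h2, smul_smul]
  simp only [uE, mul_add, add_mul, smul_mul_assoc, mul_smul_comm, one_mul, mul_one, h1, h2, h3, h4,
    h5, h6, h7, h8, smul_smul]
  simp only [Matrix.cons_val_zero, Matrix.cons_val_one, Matrix.cons_val]
  module

theorem z_uE {α β z : A} (hza : z * α = -(α * z)) (hzb : z * β = β * z) (v : Fin 4 → K) :
    z * uE α β v = uE α β ![v 0, - v 1, v 2, - v 3] * z := by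
  have h1 : z * (α * β) = -(α * β * z) := by
    rw [← mul_assoc, hza, neg_mul, mul_assoc, hzb, ← mul_assoc]
  simp only [uE, mul_add, add_mul, smul_mul_assoc, mul_smul_comm, one_mul, mul_one, hza, hzb, h1]
  simp only [Matrix.cons_val_zero, Matrix.cons_val_one, Matrix.cons_val]
  module

theorem w_uE {α β w : A} (hwa : w * α = α * w) (hwb : w * β = -(β * w)) (v : Fin 4 → K) :
    w * uE α β v = uE α β ![v 0, v 1, - v 2, - v 3] * w := by
  have h1 : w * (α * β) = -(α * β * w) := by
    rw [← mul_assoc, hwa, mul_assoc, hwb, mul_neg, ← mul_assoc]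
  simp only [uE, mul_add, add_mul, smul_mul_assoc, mul_smul_comm, one_mul, mul_one, hwa, hwb, h1]
  simp only [Matrix.cons_val_zero, Matrix.cons_val_one, Matrix.cons_val]
  module

theorem uE_sub (α β : A) (u v : Fin 4 → K) :
    uE α β u - uE α β v = uE α β (u - v) := by
  simp only [uE, Pi.sub_apply]
  module

end

theorem st_REL (h1 : ST_I4.{u}) : ST_REL.{u} := by
  intro K A _ _ _ _ α β z w a b p r v h2 hD
  have hI := h1 K A α β z w a b p r v h2 hD
  obtain ⟨haa, hbb, hab, hza, hzb, hwa, hwb, hzz, hww, hzw, a0, b0, uz, uw⟩ := hD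
  have hpb : algebraMap K A p + β = uE α β ![p, 0, 1, 0] := by
    simp only [uE, Matrix.cons_val_zero, Matrix.cons_val_one, Matrix.cons_val,
      Algebra.algebraMap_eq_smul_one]
    module
  have hra : algebraMap K A r + α = uE α β ![r, 1, 0, 0] := by
    simp only [uE, Matrix.cons_val_zero, Matrix.cons_val_one, Matrix.cons_val,
      Algebra.algebraMap_eq_smul_one]
    module
  have key1 : uE α β ![p, 0, 1, 0] =
      uE α β ![v 0, - v 1, v 2, - v 3] * (uE α β v * uE α β ![p, 0, -1, 0]) := by
    refine uw.mul_right_cancel ?_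
    calc uE α β ![p, 0, 1, 0] * w = z * z * w := by rw [hzz, hpb]
      _ = z * (uE α β v * (w * z)) := by rw [mul_assoc, hzw]
      _ = uE α β ![v 0, - v 1, v 2, - v 3] * (z * w) * z := by
        rw [← mul_assoc, z_uE hza hzb]; simp only [mul_assoc]
      _ = uE α β ![v 0, - v 1, v 2, - v 3] * (uE α β v * (w * (z * z))) := by
        rw [hzw]; simp only [mul_assoc]
      _ = _ := by
        rw [hzz, hpb, w_uE hwa hwb]
        simp only [Matrix.cons_val_zero, Matrix.cons_val_one, Matrix.cons_val, mul_assoc, neg_zero]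
  have key2 : uE α β ![r, -1, 0, 0] =
      uE α β v * (uE α β ![v 0, v 1, - v 2, - v 3] * uE α β ![r, 1, 0, 0]) := by
    refine uz.mul_right_cancel ?_
    calc uE α β ![r, -1, 0, 0] * z = z * (w * w) := by
          rw [hww, hra, z_uE hza hzb]
          simp only [Matrix.cons_val_zero, Matrix.cons_val_one, Matrix.cons_val, neg_zero]
      _ = uE α β v * (w * (z * w)) := by rw [← mul_assoc]; nth_rewrite 1 [hzw]; simp only [mul_assoc]
      _ = uE α β v * (uE α β ![v 0, v 1, - v 2, - v 3] * (w * w) * z) := by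
        rw [hzw, ← mul_assoc w, w_uE hwa hwb]; simp only [mul_assoc]
      _ = _ := by
        rw [hww, hra]
        simp only [mul_assoc]
  rw [uE_mul haa hbb hab, uE_mul haa hbb hab, ← sub_eq_zero, uE_sub] at key1 key2
  have k1 := hI _ key1
  have k2 := hI _ key2
  have e1 := congrFun k1 0
  have e2 := congrFun k1 2
  have e3 := congrFun k2 0
  have e4 := congrFun k2 1
  simp only [Pi.sub_apply, Pi.zero_apply, Matrix.cons_val_zero, Matrix.cons_val_one,
    Matrix.cons_val] at e1 e2 e3 e4
  refine ⟨?_, ?_, ?_, ?_⟩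
  · linear_combination -e1
  · linear_combination -e2
  · linear_combination -e3
  · linear_combination -e4

end Pool.Agent.Helper9.PX
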